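import Pool.Agent.PWK.PRT

/-!
# PWI: a class with finite orbit on a normal subgroup, in the form of `IsClass` and `orbit`
-/

set_option autoImplicit false

namespace Pool.Agent.PWI

open Pool.Agent.PW Pool.Agent.PWK

variable {g n : ℕ}

theorem finite_gen (g n : ℕ) : Finite (Gen g n) := by
  refine Finite.of_injective (β := (Fin g ⊕ Fin g) ⊕ Fin n)
    (fun x => match x with
      | Gen.a i => Sum.inl (Sum.inl i)
      | Gen.b i => Sum.inl (Sum.inr i)
      | Gen.c j => Sum.inr j) ?_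
  intro x y hxy
  cases x <;> cases y <;> simp_all

theorem finite_hom (g n : ℕ) (G : Type) [Group G] [Finite G] : Finite (F g n →* G) := by
  have := finite_gen g n
  exact Finite.of_equiv _ (FreeGroup.lift (α := Gen g n) (β := G))

/-- A class with finite orbit on a normal subgroup is a class in the sense of `IsClass`, with finite
`orbit`. -/
theorem class_of_fine {M : Subgroup (F g n)} {f : F g n → ℚ} (h : Fine M f) :
    IsClass M (fun x : M => f x) ∧ (orbit M (fun x : M => f x)).Finite := by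
  have hMn : M.Normal := h.good.normal
  have hMf : M.FiniteIndex := h.good.fin
  constructor
  · refine ⟨fun x y => h.good.add _ x.2 _ y.2, fun x hx => ?_, fun x j m hx => ?_⟩
    · obtain ⟨c, hc⟩ := isConj_iff.1 hx
      have e : (x : F g n) = c⁻¹ * bdry g n * (c⁻¹)⁻¹ := by
        rw [← hc]
        group
      show f x = 0
      rw [e]
      exact h.good.bdry _
    · obtain ⟨c, hc⟩ := isConj_iff.1 hx
      have e : (x : F g n) = c⁻¹ * gc j ^ m * (c⁻¹)⁻¹ := by
        rw [← hc]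
        group
      have hm : gc j ^ m ∈ M := by
        rw [← hc]
        exact hMn.conj_mem _ x.2 _
      show f x = 0
      rw [e]
      exact h.good.marked _ _ _ hm
  · have hQ : Finite (F g n ⧸ M) := Subgroup.finite_quotient_of_finiteIndex
    have hH : Finite (F g n →* F g n ⧸ M) := finite_hom g n _
    -- representatives
    let P : (F g n →* F g n ⧸ M) → MulAut (F g n) → Prop := fun η φ =>
      φ ∈ MCG g n ∧ (∀ x, x ∈ M ↔ φ x ∈ M) ∧
        η = (QuotientGroup.mk' M).comp (MulEquiv.toMonoidHom φ)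
    have hrep : ∀ η, ∃ φ₀ : MulAut (F g n), (∃ φ, P η φ) → P η φ₀ := by
      intro η
      by_cases hη : ∃ φ, P η φ
      · obtain ⟨φ, hφ⟩ := hη
        exact ⟨φ, fun _ => hφ⟩
      · exact ⟨1, fun hc => absurd hc hη⟩
    choose r hr using hrep
    let S : Set (M → ℚ) :=
      {h' : M → ℚ | ∃ φ ∈ MCG g n, (∀ x, φ x * x⁻¹ ∈ M) ∧ ∀ x : M, h' x = f (φ x)}
    have hS : S.Finite := h.orb
    have : Finite S := hS
    classical
    refine (Set.finite_range fun p : (F g n →* F g n ⧸ M) × S =>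
      (fun x : M => if hx : r p.1 x ∈ M then (p.2 : M → ℚ) ⟨r p.1 x, hx⟩ else 0)).subset ?_
    rintro f' ⟨φ, hφ, hK, hf'⟩
    let η : F g n →* F g n ⧸ M := (QuotientGroup.mk' M).comp (MulEquiv.toMonoidHom φ)
    obtain ⟨hr1, hr2, hr3⟩ := hr η ⟨φ, hφ, hK, rfl⟩
    have hγ : ∀ x, (φ * (r η)⁻¹) x * x⁻¹ ∈ M := by
      intro x
      have h1 := congrArg (fun e : F g n →* F g n ⧸ M => e ((r η)⁻¹ x)) hr3
      have h2 : ((φ ((r η)⁻¹ x) : F g n) : F g n ⧸ M) = ((r η ((r η)⁻¹ x) : F g n) : F g n ⧸ M) := h1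
      have h3 : r η ((r η)⁻¹ x) = x := by simp
      rw [h3] at h2
      have h4 := (QuotientGroup.eq (s := M)).1 h2.symm
      -- `x⁻¹ * φ (..) ∈ M`
      have h5 := hMn.conj_mem _ h4 x
      have e : x * (x⁻¹ * φ ((r η)⁻¹ x)) * x⁻¹ = (φ * (r η)⁻¹) x * x⁻¹ := by
        simp [MulAut.mul_apply]
      rwa [e] at h5
    refine ⟨(η, ⟨fun x => f ((φ * (r η)⁻¹) x), φ * (r η)⁻¹,
      (MCG g n).mul_mem hφ ((MCG g n).inv_mem hr1), hγ, fun _ => rfl⟩), ?_⟩
    funext x
    have hx : r η x ∈ M := (hr2 _).1 x.2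
    simp only
    rw [dif_pos hx, hf' x]
    have e : (φ * (r η)⁻¹) (r η (x : F g n)) = φ x := by simp [MulAut.mul_apply]
    rw [e]

end Pool.Agent.PWI
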