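import Pool.Agent.PWI.For
import Pool.Agent.PWK.St3

/-!
# PWI: reduction of Putman-Wieland to the kernels of irreducible representations
-/

set_option autoImplicit false

namespace Pool.Agent.PWI

open Pool.Agent.PW Pool.Agent.PWK

variable {g n : ℕ}

/-- `M` is the kernel of an irreducible complex representation of the deck group of the Galois
closure of the cover `K` with a nonzero vector fixed by `K`. -/
def IrrKer (K M : Subgroup (F g n)) : Prop :=
  ∃ (V : Type) (_ : AddCommGroup V) (_ : Module ℂ V) (_ : FiniteDimensional ℂ V)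
    (ρ : Representation ℂ (F g n) V),
    (∀ x ∈ K.normalCore, ρ x = 1) ∧
    (∀ U : Submodule ℂ V, (∀ w, ∀ v ∈ U, ρ w v ∈ U) → U = ⊥ ∨ U = ⊤) ∧
    (∃ v : V, v ≠ 0 ∧ ∀ k ∈ K, ρ k v = v) ∧ ∀ x, x ∈ M ↔ ρ x = 1

theorem infinite_of_irr (hS : St_SIM) (K : Subgroup (F g n)) [K.FiniteIndex]
    (hR : bdry g n ∈ K.normalCore)
    (hvan : ∀ M : Subgroup (F g n), IrrKer K M → K.normalCore ≤ M → M.Normal →
      ∀ f1 : F g n → ℚ, Fine M f1 → ∀ x ∈ M, f1 x = 0) {f : K → ℚ} (hf : IsClass K f)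
    (h0 : f ≠ 0) : (orbit K f).Infinite := by
  have hNn : K.normalCore.Normal := K.normalCore_normal
  have hNf : K.normalCore.FiniteIndex := inferInstance
  have hle : K.normalCore ≤ K := K.normalCore_le
  have hone : f 1 = 0 := by
    have := hf.add 1 1
    rw [mul_one] at this
    linarith
  have hne : ∃ x ∈ K.normalCore, ext0 K f x ≠ 0 := by
    by_contra hne
    push Not at hne
    exact h0 (zero_of_core hf hne)
  have hadd : ∀ x ∈ K.normalCore, ∀ y ∈ K.normalCore,
      ext0 K f (x * y) = ext0 K f x + ext0 K f y := by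
    intro x hx y hy
    rw [ext0_mem (hle hx), ext0_mem (hle hy), ext0_mem (K.mul_mem (hle hx) (hle hy))]
    exact hf.add ⟨x, hle hx⟩ ⟨y, hle hy⟩
  have hinv : ∀ k ∈ K, ∀ x ∈ K.normalCore, ext0 K f (k⁻¹ * x * k) = ext0 K f x := by
    intro k hk x hx
    have hxK : x ∈ K := hle hx
    rw [ext0_mem (K.mul_mem (K.mul_mem (K.inv_mem hk) hxK) hk), ext0_mem hxK]
    have h1 := hf.add ((⟨k, hk⟩ : K)⁻¹ * ⟨x, hxK⟩) ⟨k, hk⟩
    have h2 := hf.add (⟨k, hk⟩ : K)⁻¹ ⟨x, hxK⟩
    have h3 := hf.add (⟨k, hk⟩ : K)⁻¹ ⟨k, hk⟩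
    rw [inv_mul_cancel, hone] at h3
    have e : (⟨k⁻¹ * x * k, K.mul_mem (K.mul_mem (K.inv_mem hk) hxK) hk⟩ : K)
        = (⟨k, hk⟩ : K)⁻¹ * ⟨x, hxK⟩ * ⟨k, hk⟩ := rfl
    rw [e, h1, h2]
    linarith
  obtain ⟨V, hVfd, hVst, hVirr, ⟨v0, hv0V, hv0, hv0K⟩, hVN, hVc⟩ :=
    hS (F g n) K.normalCore K hle (ext0 K f) hadd hinv hne
  have hrt : ∀ (w : F g n) (v : K.normalCore → ℂ), Rt K.normalCore w v = translate K w v :=
    fun _ _ => rfl
  let ρ : Representation ℂ (F g n) V :=
    { toFun := fun w => (Rt K.normalCore w).restrict (hVst w)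
      map_one' := by
        apply LinearMap.ext
        intro v
        apply Subtype.ext
        simp [LinearMap.restrict_apply]
      map_mul' := by
        intro v w
        apply LinearMap.ext
        intro u
        apply Subtype.ext
        simp [LinearMap.restrict_apply] }
  have hρ : ∀ w (v : V), ((ρ w v : V) : K.normalCore → ℂ) = Rt K.normalCore w v := fun _ _ => rfl
  have hρN : ∀ x ∈ K.normalCore, ρ x = 1 := by
    intro x hx
    apply LinearMap.ext
    intro v
    apply Subtype.ext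
    rw [hρ]
    exact hVN x hx v v.2
  have hirr : ∀ U : Submodule ℂ V, (∀ w, ∀ v ∈ U, ρ w v ∈ U) → U = ⊥ ∨ U = ⊤ := by
    intro U hU
    have hUV : U.map V.subtype ≤ V := by
      rintro _ ⟨u, _, rfl⟩
      exact u.2
    rcases hVirr (U.map V.subtype) hUV (by
      rintro w _ ⟨u, hu, rfl⟩
      exact ⟨ρ w u, hU w u hu, rfl⟩) with h | h
    · left
      rw [eq_bot_iff]
      intro u hu
      have h2 : (u : K.normalCore → ℂ) ∈ U.map V.subtype := ⟨u, hu, rfl⟩
      rw [h] at h2
      exact (Submodule.mem_bot ℂ).mpr (Subtype.ext ((Submodule.mem_bot ℂ).mp h2))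
    · right
      rw [eq_top_iff]
      intro u _
      have : (u : K.normalCore → ℂ) ∈ U.map V.subtype := by
        rw [h]
        exact u.2
      obtain ⟨u', hu', e⟩ := this
      have e2 : u' = u := Subtype.ext e
      rwa [← e2]
  have hfix : ∃ v : V, v ≠ 0 ∧ ∀ k ∈ K, ρ k v = v :=
    ⟨⟨v0, hv0V⟩, fun h => hv0 (congrArg Subtype.val h), fun k hk => Subtype.ext (by
      rw [hρ]
      exact hv0K k hk)⟩
  let M : Subgroup (F g n) := ρ.ker
  have hM : ∀ w, w ∈ M ↔ ρ w = 1 := fun w => MonoidHom.mem_ker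
  have hIrr : IrrKer K M := ⟨V, inferInstance, inferInstance, hVfd, ρ, hρN, hirr, hfix, hM⟩
  have hM2 : ∀ w, w ∈ M ↔ ∀ v ∈ V, translate K w v = v := by
    intro w
    rw [hM]
    constructor
    · intro h v hv
      have h1 := congrArg (fun e : V →ₗ[ℂ] V => ((e ⟨v, hv⟩ : V) : K.normalCore → ℂ)) h
      exact h1
    · intro h
      apply LinearMap.ext
      intro v
      apply Subtype.ext
      exact h v v.2
  have hV0 : V ≠ ⊥ := by
    intro h
    apply hv0
    rw [h] at hv0V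
    exact (Submodule.mem_bot ℂ).mp hv0V
  have hVsp : V ≤ spanOf K f := by
    intro v hv
    obtain ⟨ι, hι, c, w, hw⟩ := hVc v hv
    have e : v = ∑ j, c j • translate K (w j)
        (fun x : K.normalCore => ((f ⟨x, K.normalCore_le x.2⟩ : ℚ) : ℂ)) := by
      funext x
      rw [Finset.sum_apply, hw x]
      refine Finset.sum_congr rfl fun j _ => ?_
      have hx : (w j)⁻¹ * (x : F g n) * w j ∈ K.normalCore := by
        have := hNn.conj_mem x.1 x.2 (w j)⁻¹
        rwa [inv_inv] at this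
      rw [ext0_mem (hle hx)]
      rfl
    rw [e]
    exact Submodule.sum_mem _ fun j _ =>
      Submodule.smul_mem _ _ (Submodule.subset_span ⟨w j, rfl⟩)
  exact infinite_of_part g n K hR f hf V hV0 hVsp (fun w v hv => hVst w v hv) M hM2
    (fun h1 h2 => hvan M hIrr h1 h2)

end Pool.Agent.PWI
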