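import Pool.Agent.PWI.Irr
import Pool.Agent.PWY.Cost
import Pool.Agent.PWY.All
import Pool.Agent.PWL.All
import Pool.Agent.PWH.All
import Pool.Agent.PWB.Main
import Pool.Agent.PWB.KEuc
import Pool.Agent.PWB.KCyc
import Pool.Agent.PWB.KChr
import Pool.Agent.PWB.KConj
import Pool.Agent.PWB.KSlide
import Pool.Agent.PWB.KPair
import Pool.Agent.PWB.KChief
import Pool.Agent.PWB.KPush
import Pool.Agent.PWB.KFrat
import Pool.Agent.PWX.Kill
import Pool.Agent.PWX.Ind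
import Pool.Agent.PWX.Real
import Pool.Agent.PWM.Fin

/-!
# PWI: vanishing of the classes with finite orbit of normal subgroups
-/

set_option autoImplicit false

namespace Pool.Agent.PWI

open Pool.Agent.PW Pool.Agent.PWK Pool.Agent.PWS Pool.Agent.PWY Pool.Agent.PWB

variable {g n : ℕ}

/-- A handle of a finite quotient. -/
theorem go8 {C : ℕ} (hC0 : 2 ^ 39 ≤ C)
    (hC : ∀ (p : ℕ) [Fact p.Prime] (ρ : F C 0 →* SL p), Dead ρ)
    {Q : Type} [Group Q] [Finite Q] {s : ℕ} {D : Subgroup Q}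
    (hc : Cost8 C Q s D) (hs : s ≤ g) (ρ : F g n →* Q) (hρ : Function.Surjective ρ) :
    ∃ φ ∈ MCG g n, Inv (g - s) D (ρ.comp (MulEquiv.toMonoidHom φ)) :=
  go_of_cost8 (st_KCyc st_KEuc) st_KChr (st_KChief (st_KPair (st_KSlide st_KConj)))
    (st_KFrat st_KPush) (Pool.Agent.PWX.st_Ind Pool.Agent.PWX.st_Real) Pool.Agent.PWH.all_Sol
    all_Aly hC0 hC hc hs ρ hρ

/-- From `IsClass` and `orbit` to `Fine`. -/
theorem van_of_infinite {M : Subgroup (F g n)}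
    (h : ∀ f : M → ℚ, IsClass M f → f ≠ 0 → (orbit M f).Infinite) :
    ∀ f1 : F g n → ℚ, Fine M f1 → ∀ x ∈ M, f1 x = 0 := by
  intro f1 hf1 x hx
  obtain ⟨h1, h2⟩ := class_of_fine hf1
  by_contra hne
  refine h _ h1 ?_ h2
  intro h3
  exact hne (congrFun h3 ⟨x, hx⟩)

/-- metabelian quotients, genus at least nine -/
theorem van_metabelian (hg : 9 ≤ g) (M : Subgroup (F g n)) [M.Normal] (hMf : M.FiniteIndex)
    (hR : bdry g n ∈ M) (hK : derivedSeries (F g n ⧸ M) 2 = ⊥) :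
    ∀ f1 : F g n → ℚ, Fine M f1 → ∀ x ∈ M, f1 x = 0 := by
  refine van_of_infinite fun f hf h0 => ?_
  have e : M.normalCore = M := Subgroup.normalCore_eq_self M
  have hR' : bdry g n ∈ M.normalCore := by rwa [e]
  have hK' : derivedSeries (Deck M) 2 = ⊥ := by
    have h2 : ∀ (A : Subgroup (F g n)) [A.Normal], A = M →
        derivedSeries (F g n ⧸ A) 2 = ⊥ := by
      rintro A _ rfl
      exact hK
    exact h2 M.normalCore e
  exact Pool.Agent.PWM.metabelian hg hR' hK' hf h0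

/-- an abelian normal subgroup of small cost -/
theorem van_block {C : ℕ} (hC0 : 2 ^ 39 ≤ C)
    (hC : ∀ (p : ℕ) [Fact p.Prime] (ρ : F C 0 →* SL p), Dead ρ)
    (M : Subgroup (F g n)) [M.Normal] (hMf : M.FiniteIndex) (hR : bdry g n ∈ M)
    (B : Subgroup (F g n ⧸ M)) [B.Normal] (hB : ∀ x ∈ B, ∀ y ∈ B, x * y = y * x)
    {s : ℕ} {D : Subgroup (F g n ⧸ M)} (hs : s + 2 ≤ g) (hDB : D ≤ B)
    (hc : Cost8 C (F g n ⧸ M) s D) :
    ∀ f1 : F g n → ℚ, Fine M f1 → ∀ x ∈ M, f1 x = 0 := by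
  refine van_of_infinite fun f hf h0 => ?_
  have hfin : Finite (F g n ⧸ M) := Subgroup.finite_quotient_of_finiteIndex
  obtain ⟨φ, hφ, h1⟩ := go8 hC0 hC hc (by omega)
    (QuotientGroup.mk' M) (QuotientGroup.mk'_surjective _)
  have e : M.normalCore = M := Subgroup.normalCore_eq_self M
  let π : F g n ⧸ M →* Deck M := QuotientGroup.map M M.normalCore (MonoidHom.id _) (by
    intro x hx
    show x ∈ M.normalCore
    rwa [e])
  have hπ : Function.Surjective π := by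
    intro y
    obtain ⟨x, rfl⟩ := QuotientGroup.mk_surjective y
    exact ⟨(x : F g n ⧸ M), rfl⟩
  have hBn : (B.map π).Normal := Subgroup.Normal.map inferInstance π hπ
  refine infinite_of_block (by omega) M (by rwa [e]) (B.map π) ?_ hφ (fun i hi => ?_) hf h0
  · rintro _ ⟨x, hx, rfl⟩ _ ⟨y, hy, rfl⟩
    rw [← map_mul, ← map_mul, hB x hx y hy]
  · have h2 := h1 i (by omega)
    exact ⟨⟨_, hDB h2.1, rfl⟩, ⟨_, hDB h2.2, rfl⟩⟩

/-- a central subgroup of small cost -/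
theorem van_central {C : ℕ} (hC0 : 2 ^ 39 ≤ C)
    (hC : ∀ (p : ℕ) [Fact p.Prime] (ρ : F C 0 →* SL p), Dead ρ)
    (M : Subgroup (F g n)) [M.Normal] (hMf : M.FiniteIndex)
    {s : ℕ} {D : Subgroup (F g n ⧸ M)} (hs : s + 1 ≤ g) (hDB : D ≤ Subgroup.center _)
    (hc : Cost8 C (F g n ⧸ M) s D) :
    ∀ f1 : F g n → ℚ, Fine M f1 → ∀ x ∈ M, f1 x = 0 := by
  intro f1 hf1 x hx
  have hfin : Finite (F g n ⧸ M) := Subgroup.finite_quotient_of_finiteIndex
  obtain ⟨θ, hθ, h1⟩ := go8 hC0 hC hc (by omega)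
    (QuotientGroup.mk' M) (QuotientGroup.mk'_surjective _)
  have hg : 0 < g := by omega
  have h2 := hDB (h1 ⟨0, hg⟩ (by simp only; omega)).1
  have hf2 := (thm_ORB g n).2 M f1 hf1 θ hθ
  have hcen : ∀ x, cm (ga ⟨0, hg⟩) x ∈ M.comap θ.toMonoidHom := by
    intro x
    show θ (cm (ga ⟨0, hg⟩) x) ∈ M
    have h3 := Subgroup.mem_center_iff.1 h2 ((θ x : F g n) : F g n ⧸ M)
    have e : θ (cm (ga ⟨0, hg⟩) x) = (θ (ga ⟨0, hg⟩) * θ x) * (θ x * θ (ga ⟨0, hg⟩))⁻¹ := by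
      simp [cm, mul_assoc]
    rw [e, ← QuotientGroup.eq_one_iff]
    have h4 : ((θ x * θ (ga ⟨0, hg⟩) : F g n) : F g n ⧸ M) =
        ((θ (ga ⟨0, hg⟩) * θ x : F g n) : F g n ⧸ M) := h3
    rw [QuotientGroup.mk_mul, QuotientGroup.mk_inv, h4, mul_inv_cancel]
  have hz := central_fine g n hg _ _ hf2 hcen
  have h5 : θ (θ⁻¹ x) = x := by simp
  have h6 := hz (θ⁻¹ x) (by
    show θ (θ⁻¹ x) ∈ M
    rwa [h5])
  simpa [h5] using h6

end Pool.Agent.PWI
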